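import Pool.Agent.K7.H79.KL.PolB

/-!
# Kloosterman angles at the values of all polynomials which are linear in one of the variables

All boxes, with square-root error against the finite-field model, and all patterns of signs at `s` consecutive primes, for the values of
all polynomials `F₁, ..., F_s` in `d` variables with bounded degrees and polynomially bounded coefficients which are of degree one in at
least one variable, at almost all integer vectors which arise from an arbitrary vector by changing a few digits. For `d = 1` this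
contains all the integers of an interval with the centre `m`; for `d = 2` it contains `S(m₁, m₂; p) = S(m₁ m₂, 1; p)`.
-/

set_option autoImplicit false

namespace Pool.Agent.Results.MP_6ea630_nt.PolynomialValues

open Finset

/-- The Kloosterman sum `S(a, 1; p)`, `p` a prime number. -/
noncomputable def kloosterman (p : ℕ) (a : ℤ) : ℝ :=
  ∑ x ∈ Ico 1 p, Real.cos (2 * Real.pi * ((((a : ZMod p) * (x : ZMod p) + (x : ZMod p)⁻¹).val : ℕ) : ℝ) / (p : ℝ))

open Classical in
/-- The angle `θ / π` in `[0, 1]`, where `2 p ^ (1 / 2) cos θ = S(a, 1; p)`, and `1 / 2` if `p` divides `a`. -/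
noncomputable def angle (p : ℕ) (a : ℤ) : ℝ :=
  if (p : ℤ) ∣ a then 1 / 2 else Real.arccos (kloosterman p a / (2 * Real.sqrt p)) / Real.pi

open Classical in
/-- The number of the indices `k < n` for which the angles of the integers `a i` at the `s` consecutive primes with the indices
`k, ..., k + s - 1` (the primes are numbered from `0`) are in the box with the sides `[u i, v i)`. -/
noncomputable def boxCount (s : ℕ) (u v : Fin s → ℝ) (n : ℕ) (a : Fin s → ℤ) : ℕ :=
  ((range n).filter (fun k => ∀ i : Fin s, u i ≤ angle (Nat.nth Nat.Prime (k + i)) (a i) ∧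
    angle (Nat.nth Nat.Prime (k + i)) (a i) < v i)).card

open Classical in
/-- The proportion of the residues modulo `p` for which the angle is in `[u, v)`. -/
noncomputable def proportion (p : ℕ) (u v : ℝ) : ℝ :=
  (((range p).filter (fun a : ℕ => u ≤ angle p (a : ℤ) ∧ angle p (a : ℤ) < v)).card : ℝ) / (p : ℝ)

/-- The expected number: the sum over the indices `k < n` of the product of the proportions at the `s` primes. -/
noncomputable def boxModel (s : ℕ) (u v : Fin s → ℝ) (n : ℕ) : ℝ :=
  ∑ k ∈ range n, ∏ i : Fin s, proportion (Nat.nth Nat.Prime (k + i)) (u i) (v i)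

open Classical in
/-- The number of the indices `k < n` such that for all `i < s` the prime `p` with the index `k + i` does not divide `a i` and
`σ i S(a i, 1; p) > η p ^ (1 / 2)`. -/
noncomputable def signCount (s : ℕ) (σ : Fin s → ℝ) (η : ℝ) (n : ℕ) (a : Fin s → ℤ) : ℕ :=
  ((range n).filter (fun k => ∀ i : Fin s, ¬ (Nat.nth Nat.Prime (k + i) : ℤ) ∣ a i ∧
    η * Real.sqrt (Nat.nth Nat.Prime (k + i)) < σ i * kloosterman (Nat.nth Nat.Prime (k + i)) (a i))).card

/-- For all boxes the number of the indices `k < n` differs from the expected number by at most `n ^ (1 / 2 + δ)`. -/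
def GoodBoxes (s : ℕ) (δ : ℝ) (n : ℕ) (a : Fin s → ℤ) : Prop :=
  ∀ u v : Fin s → ℝ, |(boxCount s u v n a : ℝ) - boxModel s u v n| ≤ (n : ℝ) ^ (1 / 2 + δ)

/-- Every pattern of signs occurs at `s` consecutive primes for at least `((1 / 4 - η) ^ s - ε) n` of the indices `k < n`. -/
def GoodSigns (s : ℕ) (η ε : ℝ) (n : ℕ) (a : Fin s → ℤ) : Prop :=
  ∀ σ : Fin s → ℝ, (∀ i, σ i = 1 ∨ σ i = -1) → ((1 / 4 - η) ^ s - ε) * n ≤ signCount s σ η n a

/-- `F` is of degree one in at least one variable, of degree at most `D` in every variable, and its coefficients are integers of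
absolute value at most `M`. -/
def Linear {d : ℕ} (D M : ℕ) (F : MvPolynomial (Fin d) ℤ) : Prop :=
  (∃ i, F.degreeOf i = 1) ∧ (∀ l, F.degreeOf l ≤ D) ∧ ∀ e, |F.coeff e| ≤ M

/-- The digit number `i` (counted from the right, beginning with `0`) of `n` in base `b`. -/
def digit (b i n : ℕ) : ℕ := n / b ^ i % b

/-- The number which arises from the number `N` with at most `K` digits in base `b`, if for every `i ∈ S`
the digit number `i` is replaced by `f i`. -/
def change (b K N : ℕ) (f : ℕ → ℕ) (S : Finset ℕ) : ℕ :=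
  ∑ i ∈ range K, (if i ∈ S then f i else digit b i N) * b ^ i

open Classical in
/-- The number of the choices of `r l` of `K l` positions for all `l < d` for which the vector of the numbers obtained by
changing the digits of the `N l` at the chosen positions (according to `f l`) does not have the property `E`. -/
noncomputable def exceptions {d : ℕ} (b : ℕ) (K r N : Fin d → ℕ) (f : Fin d → ℕ → ℕ) (E : (Fin d → ℕ) → Prop) : ℕ :=
  ((Fintype.piFinset (fun l => powersetCard (r l) (range (K l)))).filter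
    (fun S => ¬ E (fun l => change b (K l) (N l) (f l) (S l)))).card

lemma exc_eq {d : ℕ} (b : ℕ) (K r N : Fin d → ℕ) (f : Fin d → ℕ → ℕ) (E : (Fin d → ℕ) → Prop) :
    exceptions b K r N f E = Pool.Agent.Y57.FD.exceptions b K r N f E := rfl

lemma exc_and {d : ℕ} (b : ℕ) (K r N : Fin d → ℕ) (f : Fin d → ℕ → ℕ) (E E₁ E₂ : (Fin d → ℕ) → Prop)
    (h : ∀ m, E₁ m → E₂ m → E m) : exceptions b K r N f E ≤ exceptions b K r N f E₁ + exceptions b K r N f E₂ := by
  classical
  unfold exceptions
  refine (card_le_card ?_).trans (card_union_le _ _)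
  intro S hS
  rw [mem_filter] at hS
  rw [mem_union, mem_filter, mem_filter]
  by_cases h1 : E₁ (fun l => change b (K l) (N l) (f l) (S l))
  · right
    exact ⟨hS.1, fun h2 => hS.2 (h _ h1 h2)⟩
  · left
    exact ⟨hS.1, h1⟩

/-- Let a base `b ≥ 2`, integers `d, s ≥ 1`, `δ > 0`, `0 ≤ η ≤ 1 / 4`, `ε > 0` and integers `A, B, D ≥ 0` be given. There are `c > 0`
and `y₀` such that for all integers `r l`, `K l` (`l < d`), `y` with `2 r l ≤ K l` and `y ≥ y₀` the following holds.

Let `0 ≤ N l < b ^ K l` be arbitrary integers and prescribe for every position `j` a digit `f l j` different from the digit of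
`N l` in base `b`. If one chooses `r l` of the `K l` positions and replaces the digits of `N l` at these positions, then for all but at
most a proportion `1 / y ^ A` of the choices the vector `m` of the numbers obtained has the following properties for all integers `n`
with `y ≤ n ≤ exp (c r l)` for all `l` and for **all** polynomials `F₁, ..., F_s` in `d` variables with integer coefficients of absolute
value at most `n ^ B`, of degree at most `D` in every variable, each of degree one in at least one variable: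

(1) for all boxes with the sides `[u i, v i)` the number of the `k < n` for which the `s` angles of `S(F_i(m), 1; p_{k + i})` are in the
box differs from the sum over `k < n` of the product of the proportions of the residues modulo these primes by at most
`n ^ (1 / 2 + δ)`;

(2) every pattern of `s` signs of `S(F_i(m), 1; p_{k + i})` occurs, for sums of absolute value greater than `η p ^ (1 / 2)`, for at
least `((1 / 4 - η) ^ s - ε) n` of the `k < n`.

For `d = 1` and `F_i = X + β_i` this concerns all integers `m + β_i` of an interval with the centre `m`; for `d = 2` and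
`F_i = X₁ X₂` the sums are `S(m₁, m₂; p)`. -/
theorem result (b d s : ℕ) (hb : 2 ≤ b) (hd : 1 ≤ d) (hs : 1 ≤ s) (δ η ε : ℝ) (hδ : 0 < δ) (hη : 0 ≤ η) (hη1 : η ≤ 1 / 4) (hε : 0 < ε)
    (A B D : ℕ) :
    ∃ c : ℝ, 0 < c ∧ ∃ y₀ : ℕ, ∀ (K r : Fin d → ℕ) (y : ℕ), (∀ l, 2 * r l ≤ K l) → y₀ ≤ y →
    ∀ N : Fin d → ℕ, (∀ l, N l < b ^ K l) → ∀ f : Fin d → ℕ → ℕ, (∀ l j, f l j < b ∧ f l j ≠ digit b j (N l)) →
      (exceptions b K r N f (fun m => ∀ n : ℕ, y ≤ n → (∀ l, (n : ℝ) ≤ Real.exp (c * r l)) →
        ∀ F : Fin s → MvPolynomial (Fin d) ℤ, (∀ i, Linear D (n ^ B) (F i)) →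
          GoodBoxes s δ n (fun i => MvPolynomial.eval (fun l => (m l : ℤ)) (F i)) ∧
          GoodSigns s η ε n (fun i => MvPolynomial.eval (fun l => (m l : ℤ)) (F i))) : ℝ) ≤
        1 / (y : ℝ) ^ A * ∏ l, ((K l).choose (r l) : ℝ) := by
  classical
  obtain ⟨c₁, hc₁, y₁, h₁⟩ := Pool.Agent.K7.H79.KL.polBoxes b d s hb hd hs δ hδ (A + 1) B D
  obtain ⟨c₂, hc₂, y₂, h₂⟩ := Pool.Agent.K7.H79.KL.polSigns b d s hb hd hs η ε hη hη1 hε (A + 1) B D
  refine ⟨min c₁ c₂, lt_min hc₁ hc₂, y₁ + y₂ + 2, fun K r y hrK hy N hN f hf => ?_⟩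
  have hy0 : (0 : ℝ) < y := by exact_mod_cast (by omega : 0 < y)
  have hyr : (2 : ℝ) ≤ y := by exact_mod_cast (by omega : 2 ≤ y)
  have k1 := h₁ K r y hrK (by omega) N hN f hf (fun m => ∀ n : ℕ, y ≤ n → (∀ l, (n : ℝ) ≤ Real.exp (c₁ * r l)) →
      ∀ F : Fin s → MvPolynomial (Fin d) ℤ, (∀ i, Linear D (n ^ B) (F i)) →
        GoodBoxes s δ n (fun i => MvPolynomial.eval (fun l => (m l : ℤ)) (F i))) (by
    intro m hm n hyn hnr F hF u v
    have h3 := hm n (by omega) hyn hnr F (fun i => ⟨(hF i).1, (hF i).2.1, (hF i).2.2⟩) u v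
    have e : boxCount s u v n (fun i => MvPolynomial.eval (fun l => (m l : ℤ)) (F i)) =
        Pool.Agent.K7.H79.KL.cntT (Pool.Agent.K7.H79.KL.inI (fun i p m => Pool.Agent.K7.H79.KL.anA p
          (Pool.Agent.K7.H79.KL.pval (F i) m)) u v) n m := by
      unfold boxCount Pool.Agent.K7.H79.KL.cntT
      congr!
    rw [e]
    exact h3)
  have k2 := h₂ K r y hrK (by omega) N hN f hf (fun m => ∀ n : ℕ, y ≤ n → (∀ l, (n : ℝ) ≤ Real.exp (c₂ * r l)) →
      ∀ F : Fin s → MvPolynomial (Fin d) ℤ, (∀ i, Linear D (n ^ B) (F i)) →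
        GoodSigns s η ε n (fun i => MvPolynomial.eval (fun l => (m l : ℤ)) (F i))) (by
    intro m hm n hyn hnr F hF σ hσ
    have h3 := hm n (by omega) hyn hnr F (fun i => ⟨(hF i).1, (hF i).2.1, (hF i).2.2⟩) σ hσ
    have e : signCount s σ η n (fun i => MvPolynomial.eval (fun l => (m l : ℤ)) (F i)) =
        Pool.Agent.K7.H79.KL.cntT (fun i p m => ¬ (p : ℤ) ∣ Pool.Agent.K7.H79.KL.pval (F i) m ∧
          η * Real.sqrt p < σ i * Pool.Agent.K7.H79.KL.kloosterman p (Pool.Agent.K7.H79.KL.pval (F i) m)) n m := by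
      unfold signCount Pool.Agent.K7.H79.KL.cntT
      congr!
    rw [e]
    exact h3)
  rw [← exc_eq] at k1 k2
  have k3 := exc_and b K r N f (fun m => ∀ n : ℕ, y ≤ n → (∀ l, (n : ℝ) ≤ Real.exp (min c₁ c₂ * r l)) →
        ∀ F : Fin s → MvPolynomial (Fin d) ℤ, (∀ i, Linear D (n ^ B) (F i)) →
          GoodBoxes s δ n (fun i => MvPolynomial.eval (fun l => (m l : ℤ)) (F i)) ∧
          GoodSigns s η ε n (fun i => MvPolynomial.eval (fun l => (m l : ℤ)) (F i)))
    (fun m => ∀ n : ℕ, y ≤ n → (∀ l, (n : ℝ) ≤ Real.exp (c₁ * r l)) →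
      ∀ F : Fin s → MvPolynomial (Fin d) ℤ, (∀ i, Linear D (n ^ B) (F i)) →
        GoodBoxes s δ n (fun i => MvPolynomial.eval (fun l => (m l : ℤ)) (F i)))
    (fun m => ∀ n : ℕ, y ≤ n → (∀ l, (n : ℝ) ≤ Real.exp (c₂ * r l)) →
      ∀ F : Fin s → MvPolynomial (Fin d) ℤ, (∀ i, Linear D (n ^ B) (F i)) →
        GoodSigns s η ε n (fun i => MvPolynomial.eval (fun l => (m l : ℤ)) (F i))) (by
    intro m h1 h2 n hyn hnr F hF
    refine ⟨h1 n hyn (fun l => (hnr l).trans ?_) F hF, h2 n hyn (fun l => (hnr l).trans ?_) F hF⟩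
    · exact Real.exp_le_exp.2 (mul_le_mul_of_nonneg_right (min_le_left _ _) (Nat.cast_nonneg _))
    · exact Real.exp_le_exp.2 (mul_le_mul_of_nonneg_right (min_le_right _ _) (Nat.cast_nonneg _)))
  have k4 : (exceptions b K r N f (fun m => ∀ n : ℕ, y ≤ n → (∀ l, (n : ℝ) ≤ Real.exp (min c₁ c₂ * r l)) →
        ∀ F : Fin s → MvPolynomial (Fin d) ℤ, (∀ i, Linear D (n ^ B) (F i)) →
          GoodBoxes s δ n (fun i => MvPolynomial.eval (fun l => (m l : ℤ)) (F i)) ∧
          GoodSigns s η ε n (fun i => MvPolynomial.eval (fun l => (m l : ℤ)) (F i))) : ℝ) ≤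
      1 / (y : ℝ) ^ (A + 1) * ∏ l, ((K l).choose (r l) : ℝ) + 1 / (y : ℝ) ^ (A + 1) * ∏ l, ((K l).choose (r l) : ℝ) := by
    refine le_trans ?_ (add_le_add k1 k2)
    exact_mod_cast k3
  refine k4.trans ?_
  have hC : (0 : ℝ) ≤ ∏ l, ((K l).choose (r l) : ℝ) := prod_nonneg fun _ _ => Nat.cast_nonneg _
  have k5 : 1 / (y : ℝ) ^ (A + 1) + 1 / (y : ℝ) ^ (A + 1) ≤ 1 / (y : ℝ) ^ A := by
    rw [← add_div, div_le_div_iff₀ (by positivity) (by positivity), pow_succ]
    have : (0 : ℝ) < (y : ℝ) ^ A := by positivity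
    nlinarith
  calc 1 / (y : ℝ) ^ (A + 1) * ∏ l, ((K l).choose (r l) : ℝ) + 1 / (y : ℝ) ^ (A + 1) * ∏ l, ((K l).choose (r l) : ℝ) =
        (1 / (y : ℝ) ^ (A + 1) + 1 / (y : ℝ) ^ (A + 1)) * ∏ l, ((K l).choose (r l) : ℝ) := by ring
    _ ≤ _ := mul_le_mul_of_nonneg_right k5 hC

end Pool.Agent.Results.MP_6ea630_nt.PolynomialValues
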