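import Pool.Agent.Results.MP_6ea630_nt.WeylSumsLinearForms
import Pool.Agent.Results.MP_6ea630_nt.PolynomialValues
import Pool.Agent.X174.DigitWin

/-!
# Kloosterman angles for ALL integers in windows

For every `A` there is `c > 0` such that for every `κ > 0` with `κ A ≤ 1`, every sequence `v ≥ 1` of exponent of convergence at most
`τ` (for `v_i = (i + 1) ^ b` this is `1 / b`, for `v_i = b ^ i` it is `0`) and every `ρ < 1` there is a set `E` of real numbers of
Hausdorff dimension at most `(1 - κ A + τ) / (1 - ρ)` such that for each real `x` outside `E` the following holds for **all** natural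
numbers `a` with `|a - x v_i| ≤ v_i ^ ρ` for some sufficiently large `i` and all `n` with `v_i ^ κ ≤ n ≤ v_i ^ c`: the angles of
`S(α a + β, 1; p)` at `s` consecutive primes among the first `n` have all the properties of `WeylSumsLinearForms`, and a similar
theorem holds in `d` dimensions for the properties of `PolynomialValues`.
-/

set_option autoImplicit false

namespace Pool.Agent.Results.MP_6ea630_nt.IntegersInWindows

open Finset
open WeylSumsLinearForms (Cancels)
open PolynomialValues (GoodBoxes GoodSigns Linear)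

/-- the exponent of convergence of the sequence `v` is at most `τ` -/
def ExpLe (v : ℕ → ℝ) (τ : ℝ) : Prop := ∀ t : ℝ, τ < t → Summable (fun n : ℕ => (v n) ^ (-t))

lemma exc_spec {d : ℕ} (b : ℕ) (K s N : Fin d → ℕ) (f : Fin d → ℕ → ℕ) (E : (Fin d → ℕ) → Prop) :
    ∃ W : Finset (Fin d → Finset ℕ), W.card = PolynomialValues.exceptions b K s N f E ∧
      ∀ S ∈ Fintype.piFinset (fun l => powersetCard (s l) (range (K l))), S ∉ W →
        E (fun l => PolynomialValues.change b (K l) (N l) (f l) (S l)) := by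
  classical
  refine ⟨_, rfl, fun S hS hSW => ?_⟩
  by_contra h
  exact hSW (mem_filter.2 ⟨hS, h⟩)

lemma exc_one (b K r N : ℕ) (f : ℕ → ℕ) (E : ℕ → Prop) : WeylSumsLinearForms.exceptions b K r N f E =
    PolynomialValues.exceptions b (fun _ : Fin 1 => K) (fun _ => r) (fun _ => N) (fun _ => f) (fun m => E (m 0)) := by
  classical
  rw [PolynomialValues.exc_eq, ← Pool.Agent.K7.H79.KL.exc_one b K r N f E (WeylSumsLinearForms.change b K N f) (fun _ => rfl)]
  unfold WeylSumsLinearForms.exceptions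
  congr!

/-- **All integers in windows.** Let an integer `s ≥ 1`, `δ > 0`, `0 ≤ η ≤ 1 / 4`, `ε > 0` and integers `A, B, D ≥ 0` be given.

(1) There is `c > 0` such that for every `κ > 0` with `κ A ≤ 1`, every sequence `v ≥ 1` of exponent of convergence at most `τ ≥ 0`,
every `ρ < 1` and all sets `W n` of at most `n ^ B` weights `w : ℕ → [-1, 1]` there is a set `E` of real numbers of Hausdorff dimension
at most `(1 - κ A + τ) / (1 - ρ)` such that for each `x` outside `E` there is `i₀` such that for all `i ≥ i₀`, **all** natural numbers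
`a` with `|a - x v_i| ≤ v_i ^ ρ` and all `n` with `v_i ^ κ ≤ n ≤ v_i ^ c` the Weyl sums of orders at most `4` of the Kloosterman
angles `θ_p(α_i a + β_i)` at `s` consecutive primes (over the indices `k < n`, with the weights of `W n`) and the correlations of
`θ_p(α a + β)` and `θ_p(α' a + β')` are at most `(max 1 (∑ w k ^ 2)) ^ (1 / 2) n ^ δ`, for all linear forms with coefficients at most
`n ^ B` (the predicate `Cancels` of `WeylSumsLinearForms`).

(2) For every `d ≥ 1` there is `c > 0` such that for every `κ > 0` with `κ A ≤ d` and all `v`, `τ`, `ρ` as before there is a set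
`E ⊂ ℝ ^ d` of Hausdorff dimension at most `(d - κ A + τ) / (1 - ρ)` such that for each `x` outside `E` there is `i₀` such that for all
`i ≥ i₀`, **all** `m ∈ ℕ ^ d` with `|m_l - x_l v_i| ≤ v_i ^ ρ`, all `n` with `v_i ^ κ ≤ n ≤ v_i ^ c` and all polynomials `F_1, ..., F_s`
in `d` variables with integer coefficients at most `n ^ B`, of degree at most `D` in every variable and of degree one in at least one
variable, the angles of `S(F_j(m), 1; p)` at `s` consecutive primes are in every box for the expected number of the `k < n`, with an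
error of at most `n ^ (1 / 2 + δ)`, and have every pattern of signs for at least `((1 / 4 - η) ^ s - ε) n` of the `k < n` (the predicates
`GoodBoxes` and `GoodSigns` of `PolynomialValues`).

(3), (4) The sequences `v_i = (i + 1) ^ b` and `v_i = b ^ i` have exponent of convergence at most `1 / b` and `0`. -/
theorem result (s : ℕ) (hs : 1 ≤ s) (δ η ε : ℝ) (hδ : 0 < δ) (hη : 0 ≤ η) (hη1 : η ≤ 1 / 4) (hε : 0 < ε) (A B D : ℕ) :
    (∃ c : ℝ, 0 < c ∧ ∀ κ : ℝ, 0 < κ → κ * A ≤ 1 → ∀ (v : ℕ → ℝ) (τ ρ : ℝ), (∀ i, 1 ≤ v i) → 0 ≤ τ → ExpLe v τ → ρ < 1 →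
      ∀ W : ℕ → Set (ℕ → ℝ), (∀ n, (W n).Finite ∧ (W n).ncard ≤ n ^ B) → (∀ n, ∀ w ∈ W n, ∀ k, |w k| ≤ 1) →
      ∃ E : Set ℝ, dimH E ≤ ENNReal.ofReal ((1 - κ * A + τ) / (1 - ρ)) ∧ ∀ x : ℝ, x ∉ E →
        ∃ i₀ : ℕ, ∀ i : ℕ, i₀ ≤ i → ∀ a : ℕ, |(a : ℝ) - x * v i| ≤ (v i) ^ ρ →
          ∀ n : ℕ, (v i) ^ κ ≤ n → (n : ℝ) ≤ (v i) ^ c → Cancels s δ B (W n) n a) ∧
    (∀ d : ℕ, 1 ≤ d → ∃ c : ℝ, 0 < c ∧ ∀ κ : ℝ, 0 < κ → κ * A ≤ d →
      ∀ (v : ℕ → ℝ) (τ ρ : ℝ), (∀ i, 1 ≤ v i) → 0 ≤ τ → ExpLe v τ → ρ < 1 →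
      ∃ E : Set (Fin d → ℝ), dimH E ≤ ENNReal.ofReal ((d - κ * A + τ) / (1 - ρ)) ∧ ∀ x : Fin d → ℝ, x ∉ E →
        ∃ i₀ : ℕ, ∀ i : ℕ, i₀ ≤ i → ∀ m : Fin d → ℕ, (∀ l, |(m l : ℝ) - x l * v i| ≤ (v i) ^ ρ) →
          ∀ n : ℕ, (v i) ^ κ ≤ n → (n : ℝ) ≤ (v i) ^ c →
            ∀ F : Fin s → MvPolynomial (Fin d) ℤ, (∀ j, Linear D (n ^ B) (F j)) →
              GoodBoxes s δ n (fun j => MvPolynomial.eval (fun l => (m l : ℤ)) (F j)) ∧
              GoodSigns s η ε n (fun j => MvPolynomial.eval (fun l => (m l : ℤ)) (F j))) ∧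
    (∀ b : ℝ, 0 < b → ExpLe (fun n : ℕ => ((n : ℝ) + 1) ^ b) (1 / b)) ∧
    (∀ b : ℝ, 1 < b → ExpLe (fun n : ℕ => b ^ n) 0) := by
  classical
  refine ⟨?_, fun d hd => ?_, fun κ hκ => Pool.Agent.Y854.GM.expLe_pow κ hκ, fun b hb => Pool.Agent.Y854.GM.expLe_geom b hb⟩
  · obtain ⟨c, hc, y₀, h⟩ := WeylSumsLinearForms.result 2 s le_rfl hs δ hδ A B
    refine ⟨c / 4, by positivity, ?_⟩
    intro κ hκ hκA v τ ρ hv hτ hE hρ W hW hW1
    obtain ⟨E, h1, h2⟩ := Pool.Agent.X174.digitWin (d := 1) (c := c) hc y₀ A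
      (fun X m => Cancels s δ B (W X) X (m 0)) (by
        intro K r y hrK hy N hN f hf
        have h3 := h (r 0) (K 0) y (hrK 0) hy (N 0) (hN 0) (f 0) (hf 0) W hW hW1
        rw [exc_one] at h3
        have eK : (fun _ : Fin 1 => K 0) = K := funext fun i => by rw [Subsingleton.elim i 0]
        have er : (fun _ : Fin 1 => r 0) = r := funext fun i => by rw [Subsingleton.elim i 0]
        have eN : (fun _ : Fin 1 => N 0) = N := funext fun i => by rw [Subsingleton.elim i 0]
        have ef : (fun _ : Fin 1 => f 0) = f := funext fun i => by rw [Subsingleton.elim i 0]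
        rw [eK, er, eN, ef] at h3
        obtain ⟨V, hV1, hV2⟩ := exc_spec 2 K r N f
          (fun m => (fun m : ℕ => ∀ n : ℕ, y ≤ n → (n : ℝ) ≤ Real.exp (c * r 0) → Cancels s δ B (W n) n m) (m 0))
        rw [← hV1] at h3
        refine ⟨V, h3.trans (le_of_eq ?_), fun S hS hSV x hyx hxr => hV2 S hS hSV x hyx (hxr 0)⟩
        rw [Fin.prod_univ_one])
      hκ (by push_cast; linarith) hv hτ hE hρ
    obtain ⟨g, hg⟩ : ∃ g : ℝ → (Fin 1 → ℝ), g = fun y _ => y := ⟨_, rfl⟩
    have hiso : Isometry g := by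
      rw [hg]
      exact Isometry.of_dist_eq fun a b => dist_pi_const a b
    refine ⟨g ⁻¹' E, ?_, fun x hx => ?_⟩
    · rw [← hiso.dimH_image]
      refine (dimH_mono (Set.image_preimage_subset g E)).trans (h1.trans (le_of_eq ?_))
      push_cast
      rfl
    · obtain ⟨i₀, hi₀⟩ := h2 (g x) hx
      refine ⟨i₀, fun i hi a ha n hn1 hn2 => ?_⟩
      have h3 := hi₀ i hi (fun _ => a) (fun l => by rw [hg]; exact ha) n hn1 hn2
      exact h3
  · obtain ⟨c, hc, y₀, h⟩ := PolynomialValues.result 2 d s le_rfl hd hs δ η ε hδ hη hη1 hε A B D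
    refine ⟨c / 4, by positivity, ?_⟩
    intro κ hκ hκA v τ ρ hv hτ hE hρ
    obtain ⟨E, h1, h2⟩ := Pool.Agent.X174.digitWin (d := d) (c := c) hc y₀ A
      (fun X m => ∀ F : Fin s → MvPolynomial (Fin d) ℤ, (∀ i, Linear D (X ^ B) (F i)) →
          GoodBoxes s δ X (fun i => MvPolynomial.eval (fun l => (m l : ℤ)) (F i)) ∧
          GoodSigns s η ε X (fun i => MvPolynomial.eval (fun l => (m l : ℤ)) (F i))) (by
        intro K r y hrK hy N hN f hf
        have h3 := h K r y hrK hy N hN f hf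
        obtain ⟨V, hV1, hV2⟩ := exc_spec 2 K r N f (fun m => ∀ n : ℕ, y ≤ n → (∀ l, (n : ℝ) ≤ Real.exp (c * r l)) →
          ∀ F : Fin s → MvPolynomial (Fin d) ℤ, (∀ i, Linear D (n ^ B) (F i)) →
            GoodBoxes s δ n (fun i => MvPolynomial.eval (fun l => (m l : ℤ)) (F i)) ∧
            GoodSigns s η ε n (fun i => MvPolynomial.eval (fun l => (m l : ℤ)) (F i)))
        rw [← hV1] at h3
        exact ⟨V, h3, fun S hS hSV x hyx hxr => hV2 S hS hSV x hyx hxr⟩)
      hκ hκA hv hτ hE hρ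
    refine ⟨E, h1, fun x hx => ?_⟩
    obtain ⟨i₀, hi₀⟩ := h2 x hx
    exact ⟨i₀, fun i hi m hm n hn1 hn2 => hi₀ i hi m hm n hn1 hn2⟩

end Pool.Agent.Results.MP_6ea630_nt.IntegersInWindows
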