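import Pool.Agent.K7.H79.KL.QuadM

/-!
# Kloosterman angles at the values of all quadratic polynomials

The first two Weyl sums (with arbitrary weights) and all patterns of signs of `S(F_i(m), 1; p)` at `s` consecutive primes, for all
quadratic polynomials `F₁, ..., F_s` with polynomially bounded integer coefficients (for instance `S(m ^ 2, 1; p) = S(m, m; p)`), for
almost all integers `m` which arise from an arbitrary integer by changing a few digits.
-/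

set_option autoImplicit false

namespace Pool.Agent.Results.MP_6ea630_nt.QuadraticValues

open Finset

/-- The Kloosterman sum `S(a, 1; p)`, `p` a prime number. -/
noncomputable def kloosterman (p : ℕ) (a : ℤ) : ℝ :=
  ∑ x ∈ Ico 1 p, Real.cos (2 * Real.pi * ((((a : ZMod p) * (x : ZMod p) + (x : ZMod p)⁻¹).val : ℕ) : ℝ) / (p : ℝ))

open Classical in
/-- `cos θ_p(a) = S(a, 1; p) / (2 p ^ (1 / 2))`, and `0` if `p` divides `a`. -/
noncomputable def cosAngle (p : ℕ) (a : ℤ) : ℝ :=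
  if (p : ℤ) ∣ a then 0 else kloosterman p a / (2 * Real.sqrt p)

/-- The joint Weyl sum of the orders `j i` at the `s` consecutive primes with the indices `k, ..., k + s - 1`, `k < n` (the primes are
numbered from `0`), for the integer `a i` at the `i`-th of these primes, with the weights `w k`;
`U_j (cos θ) = sin ((j + 1) θ) / sin θ` is the Chebyshev polynomial. -/
noncomputable def weylSum (s : ℕ) (w : ℕ → ℝ) (j : Fin s → ℕ) (n : ℕ) (a : Fin s → ℤ) : ℝ :=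
  ∑ k ∈ range n, w k * ∏ i : Fin s, (Polynomial.Chebyshev.U ℝ (j i : ℤ)).eval (cosAngle (Nat.nth Nat.Prime (k + i)) (a i))

open Classical in
/-- The number of the indices `k < n` such that for all `i < s` the prime `p` with the index `k + i` does not divide `a i` and
`σ i S(a i, 1; p) > η p ^ (1 / 2)`. -/
noncomputable def signCount (s : ℕ) (σ : Fin s → ℝ) (η : ℝ) (n : ℕ) (a : Fin s → ℤ) : ℕ :=
  ((range n).filter (fun k => ∀ i : Fin s, ¬ (Nat.nth Nat.Prime (k + i) : ℤ) ∣ a i ∧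
    η * Real.sqrt (Nat.nth Nat.Prime (k + i)) < σ i * kloosterman (Nat.nth Nat.Prime (k + i)) (a i))).card

/-- For all weights in `W` and all orders `j i ≤ 2`, not all zero, the joint Weyl sum is at most
`(max 1 (∑ w k ^ 2)) ^ (1 / 2) n ^ δ`. -/
def Cancels (s : ℕ) (δ : ℝ) (W : Set (ℕ → ℝ)) (n : ℕ) (a : Fin s → ℤ) : Prop :=
  ∀ w ∈ W, ∀ j : Fin s → ℕ, (∀ i, j i ≤ 2) → (∃ i, j i ≠ 0) →
    |weylSum s w j n a| ≤ Real.sqrt (max 1 (∑ k ∈ range n, w k ^ 2)) * (n : ℝ) ^ δ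

/-- Every pattern of signs occurs at `s` consecutive primes for at least `((1 / 8 - η) ^ s - ε) n` of the indices `k < n`. -/
def GoodSigns (s : ℕ) (η ε : ℝ) (n : ℕ) (a : Fin s → ℤ) : Prop :=
  ∀ σ : Fin s → ℝ, (∀ i, σ i = 1 ∨ σ i = -1) → ((1 / 8 - η) ^ s - ε) * n ≤ signCount s σ η n a

/-- The digit number `i` (counted from the right, beginning with `0`) of `n` in base `b`. -/
def digit (b i n : ℕ) : ℕ := n / b ^ i % b

/-- The number which arises from the number `N` with at most `K` digits in base `b`, if for every `i ∈ S`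
the digit number `i` is replaced by `f i`. -/
def change (b K N : ℕ) (f : ℕ → ℕ) (S : Finset ℕ) : ℕ :=
  ∑ i ∈ range K, (if i ∈ S then f i else digit b i N) * b ^ i

open Classical in
/-- The number of the choices of `r` of the `K` positions for which the number obtained by changing the digits of `N` at
the chosen positions (according to `f`) does not have the property `E`. -/
noncomputable def exceptions (b K r N : ℕ) (f : ℕ → ℕ) (E : ℕ → Prop) : ℕ :=
  ((powersetCard r (range K)).filter (fun S => ¬ E (change b K N f S))).card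

lemma exc_eq (b K r N : ℕ) (f : ℕ → ℕ) (E : ℕ → Prop) : exceptions b K r N f E =
    Pool.Agent.Y57.FD.exceptions b (fun _ : Fin 1 => K) (fun _ => r) (fun _ => N) (fun _ => f) (fun m => E (m 0)) := by
  classical
  rw [← Pool.Agent.K7.H79.KL.exc_one b K r N f E (change b K N f) (fun _ => rfl)]
  unfold exceptions
  congr!

lemma exc_and (b K r N : ℕ) (f : ℕ → ℕ) (E E₁ E₂ : ℕ → Prop)
    (h : ∀ m, E₁ m → E₂ m → E m) : exceptions b K r N f E ≤ exceptions b K r N f E₁ + exceptions b K r N f E₂ := by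
  classical
  unfold exceptions
  refine (card_le_card ?_).trans (card_union_le _ _)
  intro S hS
  rw [mem_filter] at hS
  rw [mem_union, mem_filter, mem_filter]
  by_cases h1 : E₁ (change b K N f S)
  · right
    exact ⟨hS.1, fun h2 => hS.2 (h _ h1 h2)⟩
  · left
    exact ⟨hS.1, h1⟩

/-- Let a base `b ≥ 2`, an integer `s ≥ 1`, `δ > 0`, `0 ≤ η ≤ 1 / 8`, `ε > 0` and integers `A, B ≥ 0` be given. There are `c > 0` and
`y₀` such that for all integers `r`, `K`, `y` with `2 r ≤ K` and `y ≥ y₀` the following holds.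

Let `0 ≤ N < b ^ K` be an arbitrary integer, prescribe for every position `j` a digit `f j` different from the digit of `N` in
base `b`, and let for every `n` an arbitrary set `W n` of at most `n ^ B` weights `w : ℕ → [-1, 1]` be given. If one chooses `r` of the
`K` positions and replaces the digits of `N` at these positions, then for all but at most a proportion `1 / y ^ A` of the choices the
number `m` obtained has the following properties for all integers `n` with `y ≤ n ≤ exp (c r)` and for **all** quadratic polynomials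
`F_i = α_i X ^ 2 + β_i X + γ_i`, `i < s`, with integer coefficients of absolute value at most `n ^ B` and `α_i ≠ 0`:

(1) for all weights `w ∈ W n` and all orders `j_i ≤ 2`, not all zero, the Weyl sum
`∑ w k U_{j_0} (cos θ_{p_k}(F_0(m))) ... U_{j_{s - 1}} (cos θ_{p_{k + s - 1}}(F_{s - 1}(m)))` over `k < n` of the Kloosterman angles at
`s` consecutive primes is at most `(max 1 (∑ w k ^ 2)) ^ (1 / 2) n ^ δ`;

(2) every pattern of `s` signs of `S(F_i(m), 1; p_{k + i})` occurs, for sums of absolute value greater than `η p ^ (1 / 2)`, for at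
least `((1 / 8 - η) ^ s - ε) n` of the `k < n`.

For `F_i = X ^ 2` the sums are `S(m ^ 2, 1; p) = S(m, m; p)`. -/
theorem result (b s : ℕ) (hb : 2 ≤ b) (hs : 1 ≤ s) (δ η ε : ℝ) (hδ : 0 < δ) (hη : 0 ≤ η) (hη1 : η ≤ 1 / 8) (hε : 0 < ε) (A B : ℕ) :
    ∃ c : ℝ, 0 < c ∧ ∃ y₀ : ℕ, ∀ r K y : ℕ, 2 * r ≤ K → y₀ ≤ y →
    ∀ N : ℕ, N < b ^ K → ∀ f : ℕ → ℕ, (∀ j, f j < b ∧ f j ≠ digit b j N) →
    ∀ W : ℕ → Set (ℕ → ℝ), (∀ n, (W n).Finite ∧ (W n).ncard ≤ n ^ B) → (∀ n, ∀ w ∈ W n, ∀ k, |w k| ≤ 1) →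
      (exceptions b K r N f (fun m => ∀ n : ℕ, y ≤ n → (n : ℝ) ≤ Real.exp (c * r) →
        ∀ α β γ : Fin s → ℤ, (∀ i, α i ≠ 0 ∧ |α i| ≤ (n : ℤ) ^ B ∧ |β i| ≤ (n : ℤ) ^ B ∧ |γ i| ≤ (n : ℤ) ^ B) →
          Cancels s δ (W n) n (fun i => α i * m ^ 2 + β i * m + γ i) ∧
          GoodSigns s η ε n (fun i => α i * m ^ 2 + β i * m + γ i)) : ℝ) ≤
        1 / (y : ℝ) ^ A * (K.choose r : ℝ) := by
  classical
  obtain ⟨c₁, hc₁, y₁, h₁⟩ := Pool.Agent.K7.H79.KL.quadW b s hb hs δ hδ (A + 1) B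
  obtain ⟨c₂, hc₂, y₂, h₂⟩ := Pool.Agent.K7.H79.KL.quadS b s hb hs η ε hη hη1 hε (A + 1) B
  refine ⟨min c₁ c₂, lt_min hc₁ hc₂, y₁ + y₂ + 2, fun r K y hrK hy N hN f hf W hW hW1 => ?_⟩
  have hy0 : (0 : ℝ) < y := by exact_mod_cast (by omega : 0 < y)
  have hyr : (2 : ℝ) ≤ y := by exact_mod_cast (by omega : 2 ≤ y)
  obtain ⟨E₁, hE₁⟩ : ∃ E₁ : ℕ → Prop, E₁ = fun m : ℕ => ∀ n : ℕ, y ≤ n → (n : ℝ) ≤ Real.exp (c₁ * r) →
      ∀ α β γ : Fin s → ℤ, (∀ i, α i ≠ 0 ∧ |α i| ≤ (n : ℤ) ^ B ∧ |β i| ≤ (n : ℤ) ^ B ∧ |γ i| ≤ (n : ℤ) ^ B) →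
        Cancels s δ (W n) n (fun i => α i * m ^ 2 + β i * m + γ i) := ⟨_, rfl⟩
  obtain ⟨E₂, hE₂⟩ : ∃ E₂ : ℕ → Prop, E₂ = fun m : ℕ => ∀ n : ℕ, y ≤ n → (n : ℝ) ≤ Real.exp (c₂ * r) →
      ∀ α β γ : Fin s → ℤ, (∀ i, α i ≠ 0 ∧ |α i| ≤ (n : ℤ) ^ B ∧ |β i| ≤ (n : ℤ) ^ B ∧ |γ i| ≤ (n : ℤ) ^ B) →
        GoodSigns s η ε n (fun i => α i * m ^ 2 + β i * m + γ i) := ⟨_, rfl⟩
  have hadm : ∀ n : ℕ, ∀ α β γ : Fin s → ℤ, (∀ i, α i ≠ 0 ∧ |α i| ≤ (n : ℤ) ^ B ∧ |β i| ≤ (n : ℤ) ^ B ∧ |γ i| ≤ (n : ℤ) ^ B) →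
      ∀ i, Pool.Agent.K7.H79.KL.QAdm (n ^ B) (α i, β i, γ i) := by
    intro n α β γ h i
    obtain ⟨h1, h2, h3, h4⟩ := h i
    refine ⟨h1, ?_, ?_, ?_⟩
    · push_cast
      exact h2
    · push_cast
      exact h3
    · push_cast
      exact h4
  have k1 : (exceptions b K r N f E₁ : ℝ) ≤ 1 / (y : ℝ) ^ (A + 1) * (K.choose r : ℝ) := by
    rw [exc_eq]
    refine h₁ r K y hrK (by omega) N hN f hf W hW hW1 E₁ ?_
    intro m hm
    rw [hE₁]
    intro n hyn hnr α β γ hq w hw j hj hj0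
    exact hm n (by omega) hyn hnr w hw (fun i => (α i, β i, γ i)) j (hadm n α β γ hq) hj hj0
  have k2 : (exceptions b K r N f E₂ : ℝ) ≤ 1 / (y : ℝ) ^ (A + 1) * (K.choose r : ℝ) := by
    rw [exc_eq]
    refine h₂ r K y hrK (by omega) N hN f hf E₂ ?_
    intro m hm
    rw [hE₂]
    intro n hyn hnr α β γ hq σ hσ
    have h3 := hm n (by omega) hyn hnr (fun i => (α i, β i, γ i)) (hadm n α β γ hq) σ hσ
    have e : signCount s σ η n (fun i => α i * m ^ 2 + β i * m + γ i) =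
        Pool.Agent.K7.H79.KL.cntT (d := 1) (fun i p m => ¬ (p : ℤ) ∣ Pool.Agent.K7.H79.KL.qval (α i, β i, γ i) ((m 0 : ℕ) : ℤ) ∧
          η * Real.sqrt p < σ i * Pool.Agent.K7.H79.KL.kloosterman p (Pool.Agent.K7.H79.KL.qval (α i, β i, γ i) ((m 0 : ℕ) : ℤ))) n
          (fun _ => m) := by
      unfold signCount Pool.Agent.K7.H79.KL.cntT
      congr!
    rw [e]
    exact h3
  have k3 := exc_and b K r N f (fun m => ∀ n : ℕ, y ≤ n → (n : ℝ) ≤ Real.exp (min c₁ c₂ * r) →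
        ∀ α β γ : Fin s → ℤ, (∀ i, α i ≠ 0 ∧ |α i| ≤ (n : ℤ) ^ B ∧ |β i| ≤ (n : ℤ) ^ B ∧ |γ i| ≤ (n : ℤ) ^ B) →
          Cancels s δ (W n) n (fun i => α i * m ^ 2 + β i * m + γ i) ∧
          GoodSigns s η ε n (fun i => α i * m ^ 2 + β i * m + γ i)) E₁ E₂ (by
    intro m h1 h2 n hyn hnr α β γ hq
    rw [hE₁] at h1
    rw [hE₂] at h2
    refine ⟨h1 n hyn (hnr.trans ?_) α β γ hq, h2 n hyn (hnr.trans ?_) α β γ hq⟩
    · exact Real.exp_le_exp.2 (mul_le_mul_of_nonneg_right (min_le_left _ _) (Nat.cast_nonneg _))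
    · exact Real.exp_le_exp.2 (mul_le_mul_of_nonneg_right (min_le_right _ _) (Nat.cast_nonneg _)))
  have k4 : (exceptions b K r N f (fun m => ∀ n : ℕ, y ≤ n → (n : ℝ) ≤ Real.exp (min c₁ c₂ * r) →
        ∀ α β γ : Fin s → ℤ, (∀ i, α i ≠ 0 ∧ |α i| ≤ (n : ℤ) ^ B ∧ |β i| ≤ (n : ℤ) ^ B ∧ |γ i| ≤ (n : ℤ) ^ B) →
          Cancels s δ (W n) n (fun i => α i * m ^ 2 + β i * m + γ i) ∧
          GoodSigns s η ε n (fun i => α i * m ^ 2 + β i * m + γ i)) : ℝ) ≤
      1 / (y : ℝ) ^ (A + 1) * (K.choose r : ℝ) + 1 / (y : ℝ) ^ (A + 1) * (K.choose r : ℝ) := by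
    refine le_trans ?_ (add_le_add k1 k2)
    exact_mod_cast k3
  refine k4.trans ?_
  have hC : (0 : ℝ) ≤ (K.choose r : ℝ) := Nat.cast_nonneg _
  have k5 : 1 / (y : ℝ) ^ (A + 1) + 1 / (y : ℝ) ^ (A + 1) ≤ 1 / (y : ℝ) ^ A := by
    rw [← add_div, div_le_div_iff₀ (by positivity) (by positivity), pow_succ]
    have : (0 : ℝ) < (y : ℝ) ^ A := by positivity
    nlinarith
  calc 1 / (y : ℝ) ^ (A + 1) * (K.choose r : ℝ) + 1 / (y : ℝ) ^ (A + 1) * (K.choose r : ℝ) =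
        (1 / (y : ℝ) ^ (A + 1) + 1 / (y : ℝ) ^ (A + 1)) * (K.choose r : ℝ) := by ring
    _ ≤ _ := mul_le_mul_of_nonneg_right k5 hC

end Pool.Agent.Results.MP_6ea630_nt.QuadraticValues
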