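import Pool.Agent.K7.H79.KL.Lin

/-!
# Weyl sums of the Kloosterman angles along all linear forms `α m + β` at once

The first four Weyl sums of the angles of `S(α m + β, 1; p)` at `s` consecutive primes, with arbitrary weights, and the correlations
of the angles for two different linear forms, have square-root cancellation for almost all integers `m` which arise from an
arbitrary integer by changing a few digits; the bound holds for all linear forms with polynomially bounded coefficients, in
particular for all integers of an interval with the centre `m`.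
-/

set_option autoImplicit false

namespace Pool.Agent.Results.MP_6ea630_nt.WeylSumsLinearForms

open Finset

/-- The Kloosterman sum `S(a, 1; p)`, `p` a prime number. -/
noncomputable def kloosterman (p : ℕ) (a : ℤ) : ℝ :=
  ∑ x ∈ Ico 1 p, Real.cos (2 * Real.pi * ((((a : ZMod p) * (x : ZMod p) + (x : ZMod p)⁻¹).val : ℕ) : ℝ) / (p : ℝ))

open Classical in
/-- `cos θ_p(a) = S(a, 1; p) / (2 p ^ (1 / 2))`, and `0` if `p` divides `a`. -/
noncomputable def cosAngle (p : ℕ) (a : ℤ) : ℝ :=
  if (p : ℤ) ∣ a then 0 else kloosterman p a / (2 * Real.sqrt p)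

/-- The joint Weyl sum of the orders `j i` at the `s` consecutive primes with the indices `k, ..., k + s - 1`, `k < n` (the primes are
numbered from `0`), for the integer `a i` at the `i`-th of these primes, with the weights `w k`;
`U_j (cos θ) = sin ((j + 1) θ) / sin θ` is the Chebyshev polynomial. -/
noncomputable def weylSum (s : ℕ) (w : ℕ → ℝ) (j : Fin s → ℕ) (n : ℕ) (a : Fin s → ℤ) : ℝ :=
  ∑ k ∈ range n, w k * ∏ i : Fin s, (Polynomial.Chebyshev.U ℝ (j i : ℤ)).eval (cosAngle (Nat.nth Nat.Prime (k + i)) (a i))

/-- For all weights in `W` the following two statements hold.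
(1) For all linear forms `α i X + β i`, `i < s`, with integer coefficients of absolute value at most `n ^ B` and `α i ≠ 0`, and all
orders `j i ≤ 4`, not all zero, the joint Weyl sum of the angles `θ_p(α i m + β i)` is at most `(max 1 (∑ w k ^ 2)) ^ (1 / 2) n ^ δ`.
(2) For all two different linear forms `α X + β`, `α' X + β'` of this kind the sum `∑ w k cos θ_{p_k}(α m + β) cos θ_{p_k}(α' m + β')`
over `k < n` is at most `(max 1 (∑ w k ^ 2)) ^ (1 / 2) n ^ δ`. -/
def Cancels (s : ℕ) (δ : ℝ) (B : ℕ) (W : Set (ℕ → ℝ)) (n m : ℕ) : Prop :=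
  ∀ w ∈ W,
    (∀ α β : Fin s → ℤ, (∀ i, α i ≠ 0 ∧ |α i| ≤ (n : ℤ) ^ B ∧ |β i| ≤ (n : ℤ) ^ B) →
      ∀ j : Fin s → ℕ, (∀ i, j i ≤ 4) → (∃ i, j i ≠ 0) →
      |weylSum s w j n (fun i => α i * m + β i)| ≤ Real.sqrt (max 1 (∑ k ∈ range n, w k ^ 2)) * (n : ℝ) ^ δ) ∧
    (∀ α β α' β' : ℤ, α ≠ 0 → α' ≠ 0 → |α| ≤ (n : ℤ) ^ B → |β| ≤ (n : ℤ) ^ B → |α'| ≤ (n : ℤ) ^ B → |β'| ≤ (n : ℤ) ^ B →
      (α, β) ≠ (α', β') →
      |∑ k ∈ range n, w k * (cosAngle (Nat.nth Nat.Prime k) (α * m + β) * cosAngle (Nat.nth Nat.Prime k) (α' * m + β'))| ≤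
        Real.sqrt (max 1 (∑ k ∈ range n, w k ^ 2)) * (n : ℝ) ^ δ)

/-- The digit number `i` (counted from the right, beginning with `0`) of `n` in base `b`. -/
def digit (b i n : ℕ) : ℕ := n / b ^ i % b

/-- The number which arises from the number `N` with at most `K` digits in base `b`, if for every `i ∈ S`
the digit number `i` is replaced by `f i`. -/
def change (b K N : ℕ) (f : ℕ → ℕ) (S : Finset ℕ) : ℕ :=
  ∑ i ∈ range K, (if i ∈ S then f i else digit b i N) * b ^ i

open Classical in
/-- The number of the choices of `r` of the `K` positions for which the number obtained by changing the digits of `N` at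
the chosen positions (according to `f`) does not have the property `E`. -/
noncomputable def exceptions (b K r N : ℕ) (f : ℕ → ℕ) (E : ℕ → Prop) : ℕ :=
  ((powersetCard r (range K)).filter (fun S => ¬ E (change b K N f S))).card

lemma cosAngle_eq (p : ℕ) (a : ℤ) : cosAngle p a = Pool.Agent.K7.H79.KL.cosA p a := rfl

/-- Let a base `b ≥ 2`, an integer `s ≥ 1`, `δ > 0` and integers `A, B ≥ 0` be given. There are `c > 0` and `y₀` such that for all
integers `r`, `K`, `y` with `2 r ≤ K` and `y ≥ y₀` the following holds.

Let `0 ≤ N < b ^ K` be an arbitrary integer, prescribe for every position `j` a digit `f j` different from the digit of `N` in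
base `b`, and let for every `n` an arbitrary set `W n` of at most `n ^ B` weights `w : ℕ → [-1, 1]` be given (for instance the indicator
functions of intervals, residue classes or other sets of primes, or the values of characters). If one chooses `r` of the `K` positions
and replaces the digits of `N` at these positions, then for all but at most a proportion `1 / y ^ A` of the choices the number `m`
obtained has the following properties for all integers `n` with `y ≤ n ≤ exp (c r)` and all weights `w ∈ W n`:

(1) for all linear forms `α₁ X + β₁, ..., α_s X + β_s` with integer coefficients of absolute value at most `n ^ B` and `α_i ≠ 0` (for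
instance `X + β_i`, so that `m + β_i` are arbitrary integers of an interval with the centre `m`) and all orders `j₁, ..., j_s ≤ 4`, not
all zero, the Weyl sum `∑ w k U_{j₁} (cos θ_{p_k}(α₁ m + β₁)) ... U_{j_s} (cos θ_{p_{k + s - 1}}(α_s m + β_s))` over `k < n` of the
Kloosterman angles at `s` consecutive primes is at most `(max 1 (∑ w k ^ 2)) ^ (1 / 2) n ^ δ`;

(2) for all two different linear forms of this kind the sum `∑ w k cos θ_{p_k}(α m + β) cos θ_{p_k}(α' m + β')` over `k < n` is at most
`(max 1 (∑ w k ^ 2)) ^ (1 / 2) n ^ δ`. -/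
theorem result (b s : ℕ) (hb : 2 ≤ b) (hs : 1 ≤ s) (δ : ℝ) (hδ : 0 < δ) (A B : ℕ) :
    ∃ c : ℝ, 0 < c ∧ ∃ y₀ : ℕ, ∀ r K y : ℕ, 2 * r ≤ K → y₀ ≤ y →
    ∀ N : ℕ, N < b ^ K → ∀ f : ℕ → ℕ, (∀ j, f j < b ∧ f j ≠ digit b j N) →
    ∀ W : ℕ → Set (ℕ → ℝ), (∀ n, (W n).Finite ∧ (W n).ncard ≤ n ^ B) → (∀ n, ∀ w ∈ W n, ∀ k, |w k| ≤ 1) →
      (exceptions b K r N f (fun m => ∀ n : ℕ, y ≤ n → (n : ℝ) ≤ Real.exp (c * r) → Cancels s δ B (W n) n m) : ℝ) ≤
        1 / (y : ℝ) ^ A * (K.choose r : ℝ) := by
  classical
  obtain ⟨c, hc, y₀, h⟩ := Pool.Agent.K7.H79.KL.linW b s hb hs δ hδ A B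
  refine ⟨c, hc, y₀ + 2, fun r K y hrK hy N hN f hf W hW hW1 => ?_⟩
  have h1 := h r K y hrK (by omega) N hN f hf W hW hW1
    (fun m => ∀ n : ℕ, y ≤ n → (n : ℝ) ≤ Real.exp (c * r) → Cancels s δ B (W n) n m) ?_
  · refine le_trans (le_of_eq ?_) h1
    have h2 := Pool.Agent.K7.H79.KL.exc_one b K r N f
      (fun m => ∀ n : ℕ, y ≤ n → (n : ℝ) ≤ Real.exp (c * r) → Cancels s δ B (W n) n m) (change b K N f) (fun _ => rfl)
    rw [← h2]
    unfold exceptions
    congr!
  · intro m hm n hyn hnr w hw
    have hn2 : 2 ≤ n := by omega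
    have hnB : (1 : ℤ) ≤ (n : ℤ) ^ B := one_le_pow₀ (by exact_mod_cast (by omega : 1 ≤ n))
    constructor
    · intro α β hαβ j hj hj0
      have h3 := hm n hn2 hyn hnr w hw (fun i => (j i, ((α i, β i), (1, 0)))) ?_ hj0
      · refine le_trans (le_of_eq ?_) h3
        congr 1
        unfold weylSum
        refine sum_congr rfl fun k _ => ?_
        congr 1
        refine prod_congr rfl fun i _ => ?_
        unfold Pool.Agent.K7.H79.KL.locf
        rw [if_pos (hj i)]
        rfl
      · intro i
        obtain ⟨h4, h5, h6⟩ := hαβ i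
        refine ⟨le_trans (hj i) (by norm_num), h4, one_ne_zero, fun h7 => ?_, ⟨?_, ?_⟩, ?_, ?_⟩
        · have := hj i
          have h8 : j i = 5 := h7
          omega
        · push_cast
          exact h5
        · push_cast
          exact h6
        · push_cast
          simpa using hnB
        · push_cast
          simp
    · intro α β α' β' h4 h5 h6 h7 h8 h9 hne
      have hs0 : 0 < s := hs
      have h3 := hm n hn2 hyn hnr w hw
        (fun i => if i = (⟨0, hs0⟩ : Fin s) then (5, ((α, β), (α', β'))) else (0, ((1, 0), (1, 0)))) ?_ ?_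
      · refine le_trans (le_of_eq ?_) h3
        congr 1
        refine sum_congr rfl fun k _ => ?_
        congr 1
        rw [← mul_prod_erase univ _ (mem_univ (⟨0, hs0⟩ : Fin s))]
        rw [prod_eq_one (s := univ.erase (⟨0, hs0⟩ : Fin s)), mul_one]
        · unfold Pool.Agent.K7.H79.KL.locf
          rw [if_pos rfl, if_neg (by norm_num)]
          rfl
        · intro i hi
          rw [mem_erase] at hi
          rw [if_neg hi.1]
          unfold Pool.Agent.K7.H79.KL.locf
          rw [if_pos (by norm_num)]
          exact Pool.Agent.K7.H79.KL.ch_zero _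
      · intro i
        by_cases hi : i = (⟨0, hs0⟩ : Fin s)
        · simp only [if_pos hi]
          refine ⟨le_rfl, h4, h5, fun _ => hne, ⟨?_, ?_⟩, ?_, ?_⟩
          · push_cast
            exact h6
          · push_cast
            exact h7
          · push_cast
            exact h8
          · push_cast
            exact h9
        · simp only [if_neg hi]
          refine ⟨by norm_num, one_ne_zero, one_ne_zero, fun h => absurd h (by norm_num), ⟨?_, ?_⟩, ?_, ?_⟩
          all_goals push_cast
          · simpa using hnB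
          · simp
          · simpa using hnB
          · simp
      · refine ⟨⟨0, hs0⟩, ?_⟩
        rw [if_pos rfl]
        norm_num

end Pool.Agent.Results.MP_6ea630_nt.WeylSumsLinearForms
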